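import Pool.Agent.K1H12.SW.Stm

/-!
# Piece IND of the project HE: induction from subgroups of finite index

For a subgroup `K` of `G` with a section `s : G/K → G` and a `ℤK`-module `M` the induced module is
modelled by the functions `f : G/K → M` with `(g f)(x) = κ(g, x) f(g⁻¹ x)`,
`κ(g, x) = s(x)⁻¹ g s(g⁻¹ x)`.
-/

set_option autoImplicit false

namespace Pool.Agent.K1H89.HE

open Pool.Agent.K1H12.SW

/-! ### maps over the group ring -/

section mk

variable {G : Type} [Group G] {A B : Type} [AddCommGroup A] [AddCommGroup B]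
  [Module (MonoidAlgebra ℤ G) A] [Module (MonoidAlgebra ℤ G) B]

lemma smul_of (f : A →+ B)
    (h : ∀ (g : G) (a : A), f (MonoidAlgebra.of ℤ G g • a) = MonoidAlgebra.of ℤ G g • f a)
    (c : MonoidAlgebra ℤ G) (a : A) : f (c • a) = c • f a := by
  induction c using MonoidAlgebra.induction_on with
  | of g => exact h g a
  | add x y hx hy => rw [add_smul, add_smul, map_add, hx, hy]
  | smul r x hx => rw [smul_assoc, smul_assoc, map_zsmul, hx]

/-- an equivariant additive map is linear over the group ring -/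
def mkLin (f : A →+ B)
    (h : ∀ (g : G) (a : A), f (MonoidAlgebra.of ℤ G g • a) = MonoidAlgebra.of ℤ G g • f a) :
    A →ₗ[MonoidAlgebra ℤ G] B where
  toFun := f
  map_add' := f.map_add
  map_smul' := smul_of f h

/-- an equivariant additive bijection is a linear equivalence over the group ring -/
def mkEquiv (f : A ≃+ B)
    (h : ∀ (g : G) (a : A), f (MonoidAlgebra.of ℤ G g • a) = MonoidAlgebra.of ℤ G g • f a) :
    A ≃ₗ[MonoidAlgebra ℤ G] B where
  toFun := f
  map_add' := f.map_add
  map_smul' := smul_of f.toAddMonoidHom h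
  invFun := f.symm
  left_inv := f.left_inv
  right_inv := f.right_inv

end mk

/-! ### resolutions -/

section res

variable {R : Type} [Ring R]

lemma SF_iso {M N : Type} [AddCommGroup M] [Module R M] [AddCommGroup N] [Module R N]
    (e : M ≃ₗ[R] N) (h : SF R M) : SF R N := by
  obtain ⟨a, b, ⟨f⟩⟩ := h
  exact ⟨a, b, ⟨(e.symm.prodCongr (LinearEquiv.refl R _)).trans f⟩⟩

lemma Res_iso : ∀ (n : ℕ) (M N : Type) [AddCommGroup M] [Module R M] [AddCommGroup N] [Module R N]
    (_ : M ≃ₗ[R] N), Res R (fun P _ _ => SF R P) n M → Res R (fun P _ _ => SF R P) n N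
  | 0, M, N, _, _, _, _, e, h => SF_iso e h
  | n + 1, M, N, _, _, _, _, e, h => by
    obtain ⟨P, _, _, f, hP, hs, hk⟩ := h
    refine ⟨P, _, _, e.toLinearMap.comp f, hP, e.surjective.comp hs, ?_⟩
    have : LinearMap.ker (e.toLinearMap.comp f) = LinearMap.ker f := by
      ext x; simp
    rw [this]
    exact hk

end res

/-! ### the induced module -/

section ind

variable {G : Type} [Group G] (K : Subgroup G)

/-- the section -/
noncomputable def s (x : G ⧸ K) : G := x.out

lemma s_spec (x : G ⧸ K) : ((s K x : G) : G ⧸ K) = x := QuotientGroup.out_eq' x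

lemma mem_iff (x : G ⧸ K) (g : G) : (s K x)⁻¹ * g ∈ K ↔ x = (g : G ⧸ K) := by
  rw [← QuotientGroup.eq, s_spec]

/-- the cocycle -/
noncomputable def kap (g : G) (x : G ⧸ K) : K := ⟨(s K x)⁻¹ * (g * s K (g⁻¹ • x)), by
  rw [mem_iff]
  have : ((g * s K (g⁻¹ • x) : G) : G ⧸ K) = g • ((s K (g⁻¹ • x) : G) : G ⧸ K) := rfl
  rw [this, s_spec, smul_inv_smul]⟩

lemma kap_one (x : G ⧸ K) : kap K 1 x = 1 := by
  apply Subtype.ext
  simp [kap]

lemma kap_mul (g h : G) (x : G ⧸ K) : kap K (g * h) x = kap K g x * kap K h (g⁻¹ • x) := by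
  apply Subtype.ext
  simp only [kap, Subgroup.coe_mul, mul_inv_rev, mul_smul]
  group

/-- the induced module as a representation -/
noncomputable def iR (M : Type) [AddCommGroup M] [Module (MonoidAlgebra ℤ K) M] :
    Representation ℤ G (G ⧸ K → M) where
  toFun g :=
    { toFun := fun f x => MonoidAlgebra.of ℤ K (kap K g x) • f (g⁻¹ • x)
      map_add' := fun f f' => by funext x; simp only [Pi.add_apply, smul_add]
      map_smul' := fun n f => by
        funext x
        simp only [Pi.smul_apply, eq_intCast, Int.cast_id]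
        rw [smul_comm] }
  map_one' := by
    refine LinearMap.ext fun f => funext fun x => ?_
    show MonoidAlgebra.of ℤ K (kap K 1 x) • f ((1 : G)⁻¹ • x) = f x
    rw [kap_one, map_one, one_smul, inv_one, one_smul]
  map_mul' g h := by
    refine LinearMap.ext fun f => funext fun x => ?_
    show MonoidAlgebra.of ℤ K (kap K (g * h) x) • f ((g * h)⁻¹ • x) =
      MonoidAlgebra.of ℤ K (kap K g x) • MonoidAlgebra.of ℤ K (kap K h (g⁻¹ • x)) •
        f (h⁻¹ • g⁻¹ • x)
    rw [kap_mul, map_mul, mul_smul, mul_inv_rev, mul_smul]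

/-- the induced module -/
abbrev IM (M : Type) [AddCommGroup M] [Module (MonoidAlgebra ℤ K) M] : Type := (iR K M).asModule

variable {M N : Type} [AddCommGroup M] [Module (MonoidAlgebra ℤ K) M] [AddCommGroup N]
  [Module (MonoidAlgebra ℤ K) N]

lemma of_smul_eq (g : G) (f : IM K M) (x : G ⧸ K) :
    (MonoidAlgebra.of ℤ G g • f : IM K M) x =
      MonoidAlgebra.of ℤ K (kap K g x) • (show M from f (g⁻¹ • x)) := by
  have h : (MonoidAlgebra.of ℤ G g • f : IM K M) =
      ((iR K M).asAlgebraHom (MonoidAlgebra.of ℤ G g)) f := rfl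
  rw [h, Representation.asAlgebraHom_of]
  rfl

/-- functoriality -/
noncomputable def iMap (f : M →ₗ[MonoidAlgebra ℤ K] N) : IM K M →ₗ[MonoidAlgebra ℤ G] IM K N :=
  mkLin (A := IM K M) (B := IM K N)
    { toFun := fun φ x => f (φ x)
      map_zero' := by funext x; exact map_zero f
      map_add' := fun φ φ' => by funext x; exact map_add f _ _ }
    (fun g φ => by
      funext x
      rw [of_smul_eq]
      show f ((MonoidAlgebra.of ℤ G g • φ : IM K M) x) = _
      rw [of_smul_eq, map_smul]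
      rfl)

lemma iMap_apply (f : M →ₗ[MonoidAlgebra ℤ K] N) (φ : IM K M) (x : G ⧸ K) :
    iMap K f φ x = f (φ x) := rfl

/-- functoriality for equivalences -/
noncomputable def iCongr (e : M ≃ₗ[MonoidAlgebra ℤ K] N) :
    IM K M ≃ₗ[MonoidAlgebra ℤ G] IM K N :=
  LinearEquiv.ofLinearMap (iMap K e.toLinearMap) (iMap K e.symm.toLinearMap)
    (LinearMap.ext fun φ => funext fun x => e.apply_symm_apply _)
    (LinearMap.ext fun φ => funext fun x => e.symm_apply_apply _)

/-- kernels -/
noncomputable def iKer (f : M →ₗ[MonoidAlgebra ℤ K] N) :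
    IM K (LinearMap.ker f) ≃ₗ[MonoidAlgebra ℤ G] LinearMap.ker (iMap K f) :=
  mkEquiv (A := IM K (LinearMap.ker f)) (B := LinearMap.ker (iMap K f))
    { toFun := fun φ => ⟨fun x => ((show LinearMap.ker f from φ x) : M),
        LinearMap.mem_ker.mpr (funext fun x =>
          LinearMap.mem_ker.mp (show LinearMap.ker f from φ x).2)⟩
      invFun := fun ψ x => ⟨ψ.1 x, by
        have h : iMap K f ψ.1 = 0 := LinearMap.mem_ker.mp ψ.2
        have h2 : f (ψ.1 x) = 0 := congrFun h x
        exact LinearMap.mem_ker.mpr h2⟩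
      left_inv := fun φ => rfl
      right_inv := fun ψ => rfl
      map_add' := fun φ φ' => rfl }
    (fun g φ => by
      apply Subtype.ext
      funext x
      show ((show LinearMap.ker f from (MonoidAlgebra.of ℤ G g • φ : IM K (LinearMap.ker f)) x) : M)
        = (MonoidAlgebra.of ℤ G g •
          (show IM K M from fun x => ((show LinearMap.ker f from φ x) : M)) : IM K M) x
      rw [of_smul_eq, of_smul_eq]
      rfl)

/-- products -/
noncomputable def iProd : IM K (M × N) ≃ₗ[MonoidAlgebra ℤ G] IM K M × IM K N :=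
  mkEquiv (A := IM K (M × N)) (B := IM K M × IM K N)
    { toFun := fun φ => (fun x => (show M × N from φ x).1, fun x => (show M × N from φ x).2)
      invFun := fun ψ x => (ψ.1 x, ψ.2 x)
      left_inv := fun φ => rfl
      right_inv := fun ψ => rfl
      map_add' := fun φ φ' => rfl }
    (fun g φ => by
      apply Prod.ext
      · funext x
        show (show M × N from (MonoidAlgebra.of ℤ G g • φ : IM K (M × N)) x).1
          = (MonoidAlgebra.of ℤ G g •
            (show IM K M from fun x => (show M × N from φ x).1) : IM K M) x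
        rw [of_smul_eq, of_smul_eq]
        rfl
      · funext x
        show (show M × N from (MonoidAlgebra.of ℤ G g • φ : IM K (M × N)) x).2
          = (MonoidAlgebra.of ℤ G g •
            (show IM K N from fun x => (show M × N from φ x).2) : IM K N) x
        rw [of_smul_eq, of_smul_eq]
        rfl)

/-- powers -/
noncomputable def iPow (a : ℕ) : IM K (Fin a → M) ≃ₗ[MonoidAlgebra ℤ G] (Fin a → IM K M) :=
  mkEquiv (A := IM K (Fin a → M)) (B := Fin a → IM K M)
    { toFun := fun φ i x => (show Fin a → M from φ x) i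
      invFun := fun ψ x i => ψ i x
      left_inv := fun φ => rfl
      right_inv := fun ψ => rfl
      map_add' := fun φ φ' => rfl }
    (fun g φ => by
      funext i x
      show (show Fin a → M from (MonoidAlgebra.of ℤ G g • φ : IM K (Fin a → M)) x) i
          = (MonoidAlgebra.of ℤ G g •
            (show IM K M from fun x => (show Fin a → M from φ x) i) : IM K M) x
      rw [of_smul_eq, of_smul_eq]
      rfl)

/-! ### the regular module -/

open Classical in
/-- the function of `g` -/
noncomputable def E (g : G) : IM K (MonoidAlgebra ℤ K) := fun x =>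
  if h : (s K x)⁻¹ * g ∈ K then MonoidAlgebra.of ℤ K ⟨(s K x)⁻¹ * g, h⟩ else 0

lemma of_smul_E (g h : G) : MonoidAlgebra.of ℤ G g • E K h = E K (g * h) := by
  classical
  funext x
  rw [of_smul_eq]
  show MonoidAlgebra.of ℤ K (kap K g x) •
    (if h' : (s K (g⁻¹ • x))⁻¹ * h ∈ K then
      MonoidAlgebra.of ℤ K ⟨(s K (g⁻¹ • x))⁻¹ * h, h'⟩ else 0) =
    (if h' : (s K x)⁻¹ * (g * h) ∈ K then MonoidAlgebra.of ℤ K ⟨(s K x)⁻¹ * (g * h), h'⟩ else 0)
  have e : (s K x)⁻¹ * (g * h) = (kap K g x : G) * ((s K (g⁻¹ • x))⁻¹ * h) := by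
    simp only [kap]; group
  by_cases h' : (s K (g⁻¹ • x))⁻¹ * h ∈ K
  · have h'' : (s K x)⁻¹ * (g * h) ∈ K := by
      rw [e]; exact K.mul_mem (kap K g x).2 h'
    rw [dif_pos h', dif_pos h'', smul_eq_mul, ← map_mul]
    congr 1
    apply Subtype.ext
    exact e.symm
  · have h'' : ¬ (s K x)⁻¹ * (g * h) ∈ K := by
      rw [e]
      intro hc
      exact h' ((K.mul_mem_cancel_left (kap K g x).2).mp hc)
    rw [dif_neg h', dif_neg h'', smul_zero]

lemma E_single (x : G ⧸ K) (k : K) [DecidableEq (G ⧸ K)] :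
    E K (s K x * k) = (Pi.single x (MonoidAlgebra.of ℤ K k) : G ⧸ K → MonoidAlgebra ℤ K) := by
  classical
  funext y
  show (if h' : (s K y)⁻¹ * (s K x * k) ∈ K then
    MonoidAlgebra.of ℤ K ⟨(s K y)⁻¹ * (s K x * k), h'⟩ else 0) = _
  have hmk : ((s K x * k : G) : G ⧸ K) = x := by
    rw [QuotientGroup.mk_mul_of_mem _ k.2, s_spec]
  by_cases h : y = x
  · subst h
    have h' : (s K y)⁻¹ * (s K y * k) ∈ K := by rw [mem_iff, hmk]
    rw [dif_pos h', Pi.single_eq_same]
    congr 1
    apply Subtype.ext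
    simp
  · have h' : ¬ (s K y)⁻¹ * (s K x * k) ∈ K := by rw [mem_iff, hmk]; exact h
    rw [dif_neg h', Pi.single_eq_of_ne h]

/-- the inverse map -/
noncomputable def psi [Fintype (G ⧸ K)] : (G ⧸ K → MonoidAlgebra ℤ K) →+ MonoidAlgebra ℤ G :=
  ∑ x : G ⧸ K, ((AddMonoidHom.mulLeft (MonoidAlgebra.of ℤ G (s K x))).comp
    (MonoidAlgebra.mapDomainRingHom ℤ K.subtype).toAddMonoidHom).comp
      (Pi.evalAddMonoidHom (fun _ : G ⧸ K => MonoidAlgebra ℤ K) x)

lemma psi_single [Fintype (G ⧸ K)] [DecidableEq (G ⧸ K)] (x : G ⧸ K) (k : K) :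
    psi K (Pi.single x (MonoidAlgebra.of ℤ K k)) = MonoidAlgebra.of ℤ G (s K x * k) := by
  unfold psi
  rw [AddMonoidHom.finsetSum_apply, Finset.sum_eq_single x]
  · simp
  · intro y _ hy
    simp [Pi.single_eq_of_ne hy]
  · intro h; exact absurd (Finset.mem_univ _) h

/-- the map from the group ring -/
noncomputable def phi : MonoidAlgebra ℤ G →ₗ[MonoidAlgebra ℤ G] IM K (MonoidAlgebra ℤ K) :=
  LinearMap.toSpanSingleton (MonoidAlgebra ℤ G) (IM K (MonoidAlgebra ℤ K)) (E K 1)

lemma phi_of (g : G) : phi K (MonoidAlgebra.of ℤ G g) = E K g := by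
  unfold phi
  rw [LinearMap.toSpanSingleton_apply, of_smul_E, mul_one]

lemma s_mul_kk (g : G) : ∃ k : K, g = s K (g : G ⧸ K) * k :=
  ⟨⟨(s K (g : G ⧸ K))⁻¹ * g, (mem_iff K _ g).mpr rfl⟩, by simp⟩

/-- the regular module is induced from the regular module -/
lemma psi_phi [Fintype (G ⧸ K)] (a : MonoidAlgebra ℤ G) : psi K (phi K a) = a := by
  classical
  have h1 : (psi K).comp (phi K).toAddMonoidHom = AddMonoidHom.id _ := by
    refine MonoidAlgebra.addHom_ext' fun g => ?_
    refine AddMonoidHom.ext_int ?_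
    show psi K (phi K (MonoidAlgebra.of ℤ G g)) = MonoidAlgebra.of ℤ G g
    obtain ⟨k, hk⟩ := s_mul_kk K g
    rw [phi_of]
    conv_lhs => rw [hk, E_single]
    rw [psi_single, ← hk]
  exact DFunLike.congr_fun h1 a

lemma phi_psi [Fintype (G ⧸ K)] (f : G ⧸ K → MonoidAlgebra ℤ K) : phi K (psi K f) = f := by
  classical
  have h2 : ((phi K).toAddMonoidHom.comp (psi K) : (G ⧸ K → MonoidAlgebra ℤ K) →+ _) =
      AddMonoidHom.id (G ⧸ K → MonoidAlgebra ℤ K) := by
    refine AddMonoidHom.functions_ext _ _ _ fun x r => ?_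
    have h3 : (((phi K).toAddMonoidHom.comp (psi K) :
        (G ⧸ K → MonoidAlgebra ℤ K) →+ (G ⧸ K → MonoidAlgebra ℤ K))).comp
        (AddMonoidHom.single (fun _ : G ⧸ K => MonoidAlgebra ℤ K) x) =
        AddMonoidHom.single (fun _ : G ⧸ K => MonoidAlgebra ℤ K) x := by
      refine MonoidAlgebra.addHom_ext' fun k => ?_
      refine AddMonoidHom.ext_int ?_
      show phi K (psi K (Pi.single x (MonoidAlgebra.of ℤ K k))) =
        Pi.single x (MonoidAlgebra.of ℤ K k)
      rw [psi_single, phi_of, E_single]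
    exact DFunLike.congr_fun h3 r
  exact DFunLike.congr_fun h2 f

/-- the regular module is induced from the regular module -/
noncomputable def iReg [Fintype (G ⧸ K)] :
    IM K (MonoidAlgebra ℤ K) ≃ₗ[MonoidAlgebra ℤ G] MonoidAlgebra ℤ G :=
  (LinearEquiv.ofBijective (phi K)
    ⟨fun a b h => by
      rw [← psi_phi K a, ← psi_phi K b, h], fun f => ⟨psi K f, phi_psi K f⟩⟩).symm

/-- free modules -/
noncomputable def iFree [Fintype (G ⧸ K)] (a : ℕ) :
    IM K (Fin a → MonoidAlgebra ℤ K) ≃ₗ[MonoidAlgebra ℤ G] (Fin a → MonoidAlgebra ℤ G) :=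
  (iPow K a).trans (LinearEquiv.piCongrRight fun _ => iReg K)

lemma SF_ind [Fintype (G ⧸ K)] (h : SF (MonoidAlgebra ℤ K) M) : SF (MonoidAlgebra ℤ G) (IM K M) := by
  obtain ⟨a, b, ⟨e⟩⟩ := h
  exact ⟨a, b, ⟨(((LinearEquiv.refl _ _).prodCongr (iFree K a).symm).trans (iProd K).symm).trans
    ((iCongr K e).trans (iFree K b))⟩⟩

lemma Res_ind [Fintype (G ⧸ K)] : ∀ (n : ℕ) (M : Type) [AddCommGroup M]
    [Module (MonoidAlgebra ℤ K) M], Res (MonoidAlgebra ℤ K) (fun P _ _ => SF (MonoidAlgebra ℤ K) P) n M →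
    Res (MonoidAlgebra ℤ G) (fun P _ _ => SF (MonoidAlgebra ℤ G) P) n (IM K M)
  | 0, M, _, _, h => SF_ind K h
  | n + 1, M, _, _, h => by
    obtain ⟨P, _, _, f, hP, hs, hk⟩ := h
    refine ⟨IM K P, inferInstance, inferInstance, iMap K f, SF_ind K hP, ?_, ?_⟩
    · exact hs.comp_left
    · exact Res_iso n _ _ (iKer K f) (Res_ind n _ hk)

lemma of_smul_asModule {H V : Type} [Group H] [AddCommGroup V] (ρ : Representation ℤ H V) (g : H)
    (v : ρ.asModule) : (MonoidAlgebra.of ℤ H g • v : ρ.asModule) = ρ g v := by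
  have h : (MonoidAlgebra.of ℤ H g • v : ρ.asModule) =
      (ρ.asAlgebraHom (MonoidAlgebra.of ℤ H g)) v := rfl
  rw [h, Representation.asAlgebraHom_of]

/-- the restriction -/
abbrev rs {V : Type} [AddCommGroup V] (σ : Representation ℤ G V) : Representation ℤ K V :=
  σ.comp K.subtype

/-- the induced module of a restriction -/
lemma iRes {V : Type} [AddCommGroup V] (σ : Representation ℤ G V) :
    IsoR (iR K (rs K σ).asModule) (permR (G ⧸ K) σ) := by
  have e1 : ∀ (g : G) (v : V), σ g (σ g⁻¹ v) = v := fun g v => by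
    have := LinearMap.congr_fun (map_mul σ g g⁻¹) v
    rw [mul_inv_cancel, map_one] at this
    exact this.symm
  have e2 : ∀ (g : G) (v : V), σ g⁻¹ (σ g v) = v := fun g v => by
    have := LinearMap.congr_fun (map_mul σ g⁻¹ g) v
    rw [inv_mul_cancel, map_one] at this
    exact this.symm
  refine ⟨{ toFun := fun f x => σ (s K x) (f x)
            map_add' := fun f f' => funext fun x => map_add (σ (s K x)) (f x) (f' x)
            map_smul' := fun n f => funext fun x => map_smul (σ (s K x)) n (f x)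
            invFun := fun f x => σ (s K x)⁻¹ (f x)
            left_inv := fun f => funext fun x => e2 (s K x) (f x)
            right_inv := fun f => funext fun x => e1 (s K x) (f x) }, ?_⟩
  intro g f
  funext x
  show σ (s K x) (MonoidAlgebra.of ℤ K (kap K g x) • (f (g⁻¹ • x)) : (rs K σ).asModule) =
    σ g (σ (s K (g⁻¹ • x)) (f (g⁻¹ • x)))
  rw [of_smul_asModule]
  show σ (s K x) (σ (kap K g x : G) (f (g⁻¹ • x))) = _
  have h3 := LinearMap.congr_fun (map_mul σ (s K x) (kap K g x : G)) (f (g⁻¹ • x))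
  have h4 := LinearMap.congr_fun (map_mul σ g (s K (g⁻¹ • x))) (f (g⁻¹ • x))
  have h5 : s K x * (kap K g x : G) = g * s K (g⁻¹ • x) := by
    simp only [kap]; group
  rw [h5] at h3
  exact h3.symm.trans h4

end ind

/-- **IND** -/
theorem t_IND : S_IND := by
  intro h G _ K hK V _ σ hF
  have : Finite (G ⧸ K) := inferInstance
  have : Fintype (G ⧸ K) := Fintype.ofFinite _
  obtain ⟨n, hn⟩ := hF
  exact (h G).isoF _ _ _ _ (iRes K σ) ⟨n, Res_ind K n _ hn⟩

end Pool.Agent.K1H89.HE
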